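import Mathlib
import Pool.Agent.W845.Cyc.Conv

/-!
# The product condition does not imply cutoff for convolutions on the cycle

There are symmetric (even: uniform on a symmetric generating set not containing `0`, so simple
random walks on circulant graphs), irreducible and aperiodic convolution walks on cycles
`ℤ/N_k`, `N_k → ∞`, which satisfy `T_mix / T_rel → ∞` (with the absolute spectral gap) and have
no total variation cutoff.
-/

open Finset Filter Topology

namespace Pool.Agent.Results.MP_7e070a_pr.CirculantNoCutoff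

open Pool.Agent.W845.Cyc Pool.Agent.Helper394

/-- There are `N_k → ∞` and symmetric sets `S_k ⊆ ℤ/N_k` such that the convolution walks driven
by the uniform measures on `S_k` are irreducible and aperiodic, satisfy
`T_mix(1/4) / T_rel → ∞`, and do not have total variation cutoff. -/
theorem result :
    ∃ (N : ℕ → ℕ) (_ : ∀ k, NeZero (N k)) (S : ∀ k, Finset (ZMod (N k))),
      Tendsto N atTop atTop ∧
      (∀ k, 2 ≤ N k) ∧
      (∀ k, IsProb (unifOn (S k))) ∧
      (∀ k, IsSymm (unifOn (S k))) ∧
      (∀ k, Ergodic (unifOn (S k))) ∧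
      Tendsto (fun k => (tmix (unifOn (S k)) (1 / 4) : ℝ) / trel (unifOn (S k))) atTop atTop ∧
      ¬ (∀ ε : ℝ, 0 < ε → ε < 1 / 2 →
        Tendsto (fun k => (tmix (unifOn (S k)) ε : ℝ) / (tmix (unifOn (S k)) (1 - ε) : ℝ))
          atTop (𝓝 1)) := by
  choose N hN S hTN hS using fun k : ℕ => exists_bad (k + 64) (by omega)
  have h1 : ∀ k, ∀ t ≤ k + 64, 1 / 2 < tv (unifOn (S k)) t := by
    intro k t ht
    have := bad_tv_lower (hS k) t ht
    linarith
  have h3 : ∀ k ε, 0 < ε → ∃ t, tv (unifOn (S k)) t ≤ ε := fun k ε hε => bad_tv_conv (hS k) ε hε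
  refine ⟨N, hN, S, ?_, ?_, ?_, ?_, ?_, ?_, ?_⟩
  · refine tendsto_atTop_mono (fun k => ?_) tendsto_id
    have := hTN k
    simp only [id]
    omega
  · intro k
    have := hTN k
    omega
  · exact fun k => unifOn_prob _ (hS k).nonempty
  · intro k x
    have : -x ∈ S k ↔ x ∈ S k :=
      ⟨fun h => by simpa using (hS k).neg _ h, fun h => (hS k).neg _ h⟩
    simp only [unifOn, this]
  · exact fun k => bad_ergodic (hS k)
  · refine tendsto_div_of _ _ (fun k => ?_) (fun k => ?_)
    · exact sInf_gt (tv (unifOn (S k))) (k + 64) (1 / 4) (by norm_num) (h1 k)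
        (h3 k _ (by norm_num))
    · have ha := lamStar_nonneg (unifOn (S k))
      have hb := bad_lamStar (hS k)
      rw [trel]
      constructor
      · apply one_div_pos.mpr; linarith
      · rw [div_le_iff₀ (by linarith)]; linarith
  · intro hcon
    refine no_cutoff_of (fun k t => tv (unifOn (S k)) t) h1 (fun k => ?_) h3 ?_
    · refine (bad_tv_upper (hS k) _ (by omega)).trans (by norm_num)
    · have := hcon (1 / 2000) (by norm_num) (by norm_num)
      exact this

end Pool.Agent.Results.MP_7e070a_pr.CirculantNoCutoff
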